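import Mathlib
import Pool.Agent.H242.GX.Stm

/-! # Project GX (helper242): the base and one step of the formal first integral (FSTEP) -/

set_option autoImplicit false

open Set Filter Topology
open scoped ContDiff
open Pool.Agent.H242.GX

namespace Pool.Agent.H155.GX

theorem deriv_per {f : ℝ → ℝ} {T : ℝ} (h : ∀ x, f (x + T) = f x) (x : ℝ) :
    deriv f (x + T) = deriv f x := by
  have h1 : (fun y => f (y + T)) = f := funext h
  rw [← deriv_comp_add_const, h1]

theorem zero_at {h : ℝ → ℝ} (hc : Continuous h) (h0 : ∀ t, t ≠ 0 → h t = 0) : h 0 = 0 := by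
  have h1 : Tendsto h (𝓝[≠] (0 : ℝ)) (𝓝 (h 0)) := hc.continuousAt.tendsto.mono_left nhdsWithin_le_nhds
  have h2 : Tendsto h (𝓝[≠] (0 : ℝ)) (𝓝 0) := by
    refine (tendsto_const_nhds (x := (0 : ℝ))).congr' ?_
    filter_upwards [self_mem_nhdsWithin] with t ht
    exact (h0 t ht).symm
  exact tendsto_nhds_unique h1 h2

/-- a smooth even function which vanishes on the axis is divisible by `t²` -/
theorem even_div (hHAD : S_HAD) {f : ℝ × ℝ → ℝ} (hf : ContDiff ℝ ∞ f)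
    (he : ∀ θ t : ℝ, f (θ, -t) = f (θ, t)) (h0 : ∀ θ : ℝ, f (θ, 0) = 0) :
    ∃ g : ℝ × ℝ → ℝ, ContDiff ℝ ∞ g ∧ ∀ θ t : ℝ, f (θ, t) = t ^ 2 * g (θ, t) := by
  obtain ⟨g1, hg1, e1⟩ := hHAD f hf h0
  have hc : Continuous g1 := hg1.continuous
  have h1 : ∀ θ : ℝ, g1 (θ, 0) = 0 := by
    intro θ
    have hz := zero_at (h := fun t => g1 (θ, t) + g1 (θ, -t)) (by fun_prop) (by
      intro t ht
      have a1 := e1 θ t
      have a2 := e1 θ (-t)
      rw [he] at a2
      have a3 : t * (g1 (θ, t) + g1 (θ, -t)) = 0 := by linarith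
      exact (mul_eq_zero.1 a3).resolve_left ht)
    have hz' : g1 (θ, 0) + g1 (θ, -0) = 0 := hz
    rw [neg_zero] at hz'
    linarith
  obtain ⟨g2, hg2, e2⟩ := hHAD g1 hg1 h1
  exact ⟨g2, hg2, fun θ t => by rw [e1, e2]; ring⟩

theorem rho_smooth {p : ℝ → ℝ} (hp : Supp p) : ContDiff ℝ ∞ (rho p) := by
  have h1 := (contDiff_infty_iff_deriv.1 hp.smooth).2
  have h2 := (contDiff_infty_iff_deriv.1 h1).2
  exact hp.smooth.add h2

theorem rho_pos {p : ℝ → ℝ} (hp : Supp p) (α : ℝ) : 0 < rho p α := hp.pos α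

theorem rho_per {p : ℝ → ℝ} (hp : Supp p) (α : ℝ) : rho p (α + 2 * Real.pi) = rho p α := by
  unfold rho
  rw [hp.per, deriv_per (fun x => deriv_per hp.per x)]

theorem cr_pos {p : ℝ → ℝ} (hp : Supp p) (α : ℝ) : 0 < cr p α := Real.rpow_pos_of_pos (rho_pos hp α) _

theorem cr_pow {p : ℝ → ℝ} (hp : Supp p) (α : ℝ) : cr p α ^ 3 = rho p α := by
  unfold cr
  rw [← Real.rpow_natCast, ← Real.rpow_mul (rho_pos hp α).le]
  norm_num

theorem cr_PP {p : ℝ → ℝ} (hp : Supp p) : PP (cr p) := by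
  refine ⟨?_, fun φ => ?_⟩
  · exact (rho_smooth hp).rpow_const_of_ne (fun x => (rho_pos hp x).ne')
  · unfold cr
    rw [rho_per hp]

theorem rho_deriv {p : ℝ → ℝ} (hp : Supp p) (α : ℝ) :
    deriv (rho p) α = 3 * cr p α ^ 2 * deriv (cr p) α := by
  have h1 : rho p = fun x => cr p x ^ 3 := funext fun x => (cr_pow hp x).symm
  have h2 : DifferentiableAt ℝ (cr p) α := (cr_PP hp).smooth.differentiable (by simp) α
  rw [h1, deriv_fun_pow h2]
  norm_num

theorem lin_zero (hDER : S_DER) {p : ℝ → ℝ} {X Z : ℝ × ℝ → ℝ × ℝ} (hT : TWeb p X Z) {n : ℕ}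
    (hn : 1 ≤ n) (u : ℝ → ℝ) (θ : ℝ) :
    2 * (deriv (fun t => (X (θ, t)).2) 0) ^ (2 * n) * deriv (fun t => (X (θ, t)).1) 0 * deriv u θ
      + 2 * n * (deriv (fun t => (X (θ, t)).2) 0) ^ (2 * n - 1) *
        deriv (deriv (fun t => (X (θ, t)).2)) 0 * u θ =
    2 * (1 / (2 * cr p θ ^ 3)) ^ n / cr p θ ^ 4 * (cr p θ * deriv u θ - n * deriv (cr p) θ * u θ) := by
  obtain ⟨h1, h2, h3⟩ := hDER p X Z hT θ
  have hc := cr_pos hT.supp θ
  obtain ⟨m, rfl⟩ : ∃ m, n = m + 1 := ⟨n - 1, by omega⟩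
  have e0 : 2 * (m + 1) - 1 = 2 * m + 1 := by omega
  rw [h3, h1, e0, rho_deriv hT.supp, ← cr_pow hT.supp] at *
  generalize deriv (fun t => (X (θ, t)).2) 0 = b at *
  generalize deriv (cr p) θ = c' at *
  generalize cr p θ = c at *
  generalize deriv u θ = u' at *
  generalize u θ = v at *
  have e1 : b ^ (2 * (m + 1)) = (1 / (2 * c ^ 3)) ^ (m + 1) := by rw [pow_mul, h2]
  have e2 : 2 * ((m + 1 : ℕ) : ℝ) * b ^ (2 * m + 1) * (-b * (3 * c ^ 2 * c') / (3 * (c ^ 3) ^ 2)) * v =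
      2 * ((m + 1 : ℕ) : ℝ) * b ^ (2 * (m + 1)) * (-(3 * c ^ 2 * c') / (3 * (c ^ 3) ^ 2)) * v := by
    ring
  rw [e2, e1]
  generalize (1 / (2 * c ^ 3)) ^ (m + 1) = B
  have hc0 : c ≠ 0 := hc.ne'
  field_simp
  ring

theorem odd_neg (X : ℝ × ℝ → ℝ × ℝ) (H : ℝ × ℝ → ℝ) (θ t : ℝ) :
    Pool.Agent.H242.GX.Odd X H θ (-t) = - Pool.Agent.H242.GX.Odd X H θ t := by
  unfold Pool.Agent.H242.GX.Odd
  rw [neg_neg]
  ring

theorem int_smooth {w : ℝ → ℝ} (hw : ContDiff ℝ ∞ w) (hwp : ∀ θ, w (θ + 2 * Real.pi) = w θ)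
    (hw0 : ∫ θ in (0 : ℝ)..(2 * Real.pi), w θ = 0) :
    ∃ v : ℝ → ℝ, PP v ∧ ∀ θ, deriv v θ = w θ := by
  have hvd : ∀ θ, HasDerivAt (fun θ => ∫ x in (0 : ℝ)..θ, w x) (w θ) θ := fun θ =>
    intervalIntegral.integral_hasDerivAt_right (hw.continuous.intervalIntegrable _ _)
      (hw.continuous.stronglyMeasurableAtFilter _ _) hw.continuous.continuousAt
  have hvd' : deriv (fun θ => ∫ x in (0 : ℝ)..θ, w x) = w := funext fun θ => (hvd θ).deriv
  refine ⟨fun θ => ∫ x in (0 : ℝ)..θ, w x, ⟨?_, ?_⟩, fun θ => (hvd θ).deriv⟩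
  · refine contDiff_infty_iff_deriv.2 ⟨fun θ => (hvd θ).differentiableAt, ?_⟩
    rw [hvd']
    exact hw
  · intro θ
    have h1 : (∫ x in (0 : ℝ)..θ, w x) + ∫ x in θ..(θ + 2 * Real.pi), w x =
        ∫ x in (0 : ℝ)..(θ + 2 * Real.pi), w x :=
      intervalIntegral.integral_add_adjacent_intervals (hw.continuous.intervalIntegrable _ _)
        (hw.continuous.intervalIntegrable _ _)
    have h2 : ∫ x in θ..(θ + 2 * Real.pi), w x = ∫ x in (0 : ℝ)..(0 + 2 * Real.pi), w x :=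
      Function.Periodic.intervalIntegral_add_eq (fun x => hwp x) θ 0
    rw [zero_add, hw0] at h2
    show (∫ x in (0 : ℝ)..(θ + 2 * Real.pi), w x) = ∫ x in (0 : ℝ)..θ, w x
    rw [← h1, h2, add_zero]

theorem gx_FSTEP (hLIN : S_LIN) (hDER : S_DER) (hMEAN : S_MEAN) (hHAD : S_HAD) : S_FSTEP := by
  intro p X Z hT
  refine ⟨⟨cr_PP hT.supp, cr_pos hT.supp, ?_⟩, ?_⟩
  · obtain ⟨s, hs, hso, hse, hs0⟩ := hLIN X Z hT.toWeb 1 le_rfl (cr p) (cr_PP hT.supp)
    have h0 : ∀ θ, s (θ, 0) = 0 := by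
      intro θ
      rw [hs0 θ, lin_zero hDER hT (n := 1) le_rfl (cr p) θ]
      push_cast
      ring
    obtain ⟨g, hg, eg⟩ := even_div hHAD hs hse h0
    refine ⟨g, hg, fun θ t => ?_⟩
    have h1 := hso θ t
    have h2 : Pool.Agent.H242.GX.Odd X (fun x => x.2 * cr p x.1) θ t =
        Pool.Agent.H242.GX.Odd X (fun x => x.2 ^ 1 * cr p x.1) θ t := by
      unfold Pool.Agent.H242.GX.Odd
      simp only [pow_one]
    rw [h2, h1, eg]
    ring
  · intro n H E hn hH hHper hH0 hHd hE hodd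
    have hcP := cr_PP hT.supp
    have hcpos := cr_pos hT.supp
    have hEc := hE.continuous
    have hEe : ∀ θ t, E (θ, -t) = E (θ, t) := by
      intro θ t
      rcases eq_or_ne t 0 with rfl | ht
      · rw [neg_zero]
      have a1 := hodd θ t
      have a2 := hodd θ (-t)
      rw [odd_neg, a1] at a2
      have a4 : (-t) ^ (2 * n + 1) = - t ^ (2 * n + 1) := by
        rw [pow_succ, pow_mul, neg_sq]; ring
      rw [a4] at a2
      have a5 : t ^ (2 * n + 1) ≠ 0 := pow_ne_zero _ ht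
      have a6 : t ^ (2 * n + 1) * (E (θ, -t) - E (θ, t)) = 0 := by linarith
      have a7 := (mul_eq_zero.1 a6).resolve_left a5
      linarith
    have hEp : ∀ θ, E (θ + 2 * Real.pi, 0) = E (θ, 0) := by
      intro θ
      have hz := zero_at (h := fun t => E (θ + 2 * Real.pi, t) - E (θ, t)) (by fun_prop) (by
        intro t ht
        have a1 := hodd θ t
        have a2 := hodd (θ + 2 * Real.pi) t
        have a3 : Pool.Agent.H242.GX.Odd X H (θ + 2 * Real.pi) t =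
            Pool.Agent.H242.GX.Odd X H θ t := by
          unfold Pool.Agent.H242.GX.Odd
          rw [hT.per, hT.per]
          simp only [hHper]
        rw [a3, a1] at a2
        have a5 : t ^ (2 * n + 1) ≠ 0 := pow_ne_zero _ ht
        have a6 : t ^ (2 * n + 1) * (E (θ + 2 * Real.pi, t) - E (θ, t)) = 0 := by linarith
        exact (mul_eq_zero.1 a6).resolve_left a5)
      have hz' : E (θ + 2 * Real.pi, 0) - E (θ, 0) = 0 := hz
      linarith
    have hmean := hMEAN p X Z hT (2 * n + 1) H E (by omega) hH hHper hH0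
      (fun φ => by rw [hHd]; exact hcpos φ) hE hodd
    have hint : ∫ θ in (0 : ℝ)..(2 * Real.pi), cr p θ ^ (2 * n + 3) * E (θ, 0) = 0 := by
      have e1 : (fun θ => Real.sqrt (2 * rho p θ / deriv (fun y => H (θ, y)) 0) ^ (2 * n + 1) *
          E (θ, 0) * (rho p θ / deriv (fun y => H (θ, y)) 0)) =
          fun θ => (Real.sqrt 2) ^ (2 * n + 1) * (cr p θ ^ (2 * n + 3) * E (θ, 0)) := by
        funext θ
        rw [hHd, ← cr_pow hT.supp]
        have hc := hcpos θ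
        have hc0 := hc.ne'
        have e2 : 2 * cr p θ ^ 3 / cr p θ = 2 * cr p θ ^ 2 := by field_simp
        have e3 : cr p θ ^ 3 / cr p θ = cr p θ ^ 2 := by field_simp
        rw [e2, e3, Real.sqrt_mul (by norm_num), Real.sqrt_sq hc.le, mul_pow]
        ring
      rw [e1, intervalIntegral.integral_const_mul] at hmean
      exact (mul_eq_zero.1 hmean).resolve_left (pow_ne_zero _ (by positivity))
    obtain ⟨m, rfl⟩ : ∃ m, n = m + 1 := ⟨n - 1, by omega⟩
    have hE0s : ContDiff ℝ ∞ (fun θ : ℝ => E (θ, 0)) :=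
      hE.comp (contDiff_id.prodMk contDiff_const)
    obtain ⟨v, hv, hvd⟩ := int_smooth (w := fun θ => -(2 ^ m * (cr p θ ^ (2 * (m + 1) + 3) * E (θ, 0))))
      ((contDiff_const.mul ((hcP.smooth.pow _).mul hE0s)).neg)
      (by intro θ; simp only [hcP.per, hEp])
      (by rw [intervalIntegral.integral_neg, intervalIntegral.integral_const_mul, hint]; simp)
    have hu : PP (fun θ => cr p θ ^ (m + 1) * v θ) :=
      ⟨(hcP.smooth.pow _).mul hv.smooth, fun φ => by simp only [hcP.per, hv.per]⟩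
    refine ⟨fun θ => cr p θ ^ (m + 1) * v θ, hu, ?_⟩
    obtain ⟨s, hs, hso, hse, hs0⟩ := hLIN X Z hT.toWeb (m + 1) (by omega) _ hu
    have hsum : ∀ θ, E (θ, 0) + s (θ, 0) = 0 := by
      intro θ
      have hcd : DifferentiableAt ℝ (cr p) θ := hcP.smooth.differentiable (by simp) θ
      have hvD : DifferentiableAt ℝ v θ := hv.smooth.differentiable (by simp) θ
      have hud : deriv (fun θ => cr p θ ^ (m + 1) * v θ) θ =
          (m + 1 : ℝ) * cr p θ ^ m * deriv (cr p) θ * v θ + cr p θ ^ (m + 1) * deriv v θ := by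
        rw [deriv_fun_mul (hcd.fun_pow _) hvD, deriv_fun_pow hcd]
        push_cast
        rfl
      rw [hs0 θ, lin_zero hDER hT (by omega), hud, hvd]
      have hc0 : cr p θ ≠ 0 := (hcpos θ).ne'
      generalize deriv (cr p) θ = c'
      generalize cr p θ = c at *
      generalize v θ = vv
      generalize E (θ, 0) = E0
      push_cast
      have e1 : c * ((m + 1 : ℝ) * c ^ m * c' * vv + c ^ (m + 1) * -(2 ^ m * (c ^ (2 * (m + 1) + 3) * E0))) -
          (m + 1 : ℝ) * c' * (c ^ (m + 1) * vv) = -(2 ^ m * c ^ (3 * m + 7) * E0) := by ring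
      rw [e1]
      have e2 : (1 / (2 * c ^ 3)) ^ (m + 1) = 1 / (2 * 2 ^ m * c ^ (3 * m + 3)) := by
        rw [div_pow, one_pow, mul_pow, ← pow_mul]
        ring
      rw [e2]
      have e3 : c ^ (3 * m + 7) = c ^ (3 * m + 3) * c ^ 4 := by ring
      rw [e3]
      have h2 : (2 : ℝ) ^ m ≠ 0 := by positivity
      have h3 : c ^ (3 * m + 3) ≠ 0 := pow_ne_zero _ hc0
      generalize (2 : ℝ) ^ m = A at *
      generalize c ^ (3 * m + 3) = B at *
      field_simp
      ring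
    obtain ⟨g, hg, eg⟩ := even_div hHAD (f := fun x => E x + s x) (hE.add hs)
      (fun θ t => by simp only [hEe, hse]) hsum
    refine ⟨g, hg, fun θ t => ?_⟩
    have h1 := hso θ t
    have h2 := hodd θ t
    have h3 := eg θ t
    have h4 : Pool.Agent.H242.GX.Odd X
        (fun x => H x + x.2 ^ (m + 1) * (fun θ => cr p θ ^ (m + 1) * v θ) x.1) θ t =
        Pool.Agent.H242.GX.Odd X H θ t + Pool.Agent.H242.GX.Odd X
          (fun x => x.2 ^ (m + 1) * (fun θ => cr p θ ^ (m + 1) * v θ) x.1) θ t := by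
      unfold Pool.Agent.H242.GX.Odd
      ring
    have h5 : E (θ, t) + s (θ, t) = t ^ 2 * g (θ, t) := h3
    rw [h4, h1, h2, ← mul_add, h5]
    ring

end Pool.Agent.H155.GX
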